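import Mathlib
import Pool.Agent.H23.GLTC

set_option autoImplicit false

namespace Pool.Agent.Results.MP_67e79f_co.NoBound
open Pool.Agent.H23.GLT

theorem result : ¬ ∃ f : ℕ → ℕ, ∀ (V : Type) [Fintype V] (G : SimpleGraph V),
    IsGood G → CGood (f (tw G)) G := by
  rintro ⟨f, hf⟩
  let m := (Finset.range 18).sup f
  have h1 := HG_lower (m + 1) (by omega) _ (hf _ (HG (m + 1)) (HG_good _))
  have h2 : tw (HG (m + 1)) ≤ 17 := Nat.sInf_le (HG_td m)
  have h3 : f (tw (HG (m + 1))) ≤ m := Finset.le_sup (f := f) (Finset.mem_range.2 (by omega))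
  omega

end Pool.Agent.Results.MP_67e79f_co.NoBound
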